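import Pool.Agent.N576.MX3.D

/-! MX3/LIOU and CMP (project of helper576). -/

set_option autoImplicit false

namespace Pool.Agent.N36.MX3L

open Finset Pool.Agent.N576.MX3

theorem exp_one_log {a d : ℕ} (ha : 1 ≤ a) (hd : 1 ≤ d) (n : ℕ) :
    Real.exp ((n : ℝ) * Real.log ((a : ℝ) / d)) = ((a : ℝ) / d) ^ n := by
  have h1 : (0 : ℝ) < a := by exact_mod_cast ha
  have h2 : (0 : ℝ) < d := by exact_mod_cast hd
  rw [Real.exp_nat_mul, Real.exp_log (by positivity)]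

theorem exp_E {q : Q3} {H : ℕ} (ok : q.Ok H) (l : ℕ × ℕ × ℕ) (s : ℕ) :
    Real.exp (s * q.E l) = ((q.a1 : ℝ) / q.d1) ^ (s * l.1) * ((q.a2 : ℝ) / q.d2) ^ (s * l.2.1) *
      ((q.a3 : ℝ) / q.d3) ^ (s * l.2.2) := by
  rw [← exp_one_log ok.a1.1 ok.d1.1, ← exp_one_log ok.a2.1 ok.d2.1, ← exp_one_log ok.a3.1 ok.d3.1,
    ← Real.exp_add, ← Real.exp_add]
  congr 1
  unfold Q3.E Q3.l1 Q3.l2 Q3.l3
  push_cast
  ring

theorem H_pos {q : Q3} {H : ℕ} (ok : q.Ok H) : (1 : ℝ) ≤ H := by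
  exact_mod_cast ok.a1.1.trans ok.a1.2

theorem mem_Cu {L : ℕ} {l : ℕ × ℕ × ℕ} (h : l ∈ Cu L) : l.1 < L ∧ l.2.1 < L ∧ l.2.2 < L := by
  unfold Cu at h
  rw [mem_product, mem_product, mem_range, mem_range, mem_range] at h
  exact h

/-- integrality of one factor -/
theorem fac {a d x L s : ℕ} (hd : 1 ≤ d) (hx : x < L) :
    ((a : ℝ) / d) ^ (s * x) * (d : ℝ) ^ (L * s) = ((a ^ (s * x) * d ^ ((L - x) * s) : ℕ) : ℝ) := by
  have h2 : (d : ℝ) ≠ 0 := by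
    have : (0 : ℝ) < d := by exact_mod_cast hd
    exact this.ne'
  have e : L * s = s * x + (L - x) * s := by
    obtain ⟨y, rfl⟩ := Nat.exists_eq_add_of_lt hx
    have : x + y + 1 - x = y + 1 := by omega
    rw [this]
    ring
  rw [e, pow_add, div_pow]
  push_cast
  field_simp

theorem liou : LIOU := by
  intro q H L p m1 m2 s ok
  obtain ⟨Z, hZ⟩ : ∃ Z : ℤ, Z = ∑ l ∈ Cu L, p l * q.g1 l ^ m1 * q.g2 l ^ m2 *
      ((q.a1 ^ (s * l.1) * q.d1 ^ ((L - l.1) * s) : ℕ) : ℤ) *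
      ((q.a2 ^ (s * l.2.1) * q.d2 ^ ((L - l.2.1) * s) : ℕ) : ℤ) *
      ((q.a3 ^ (s * l.2.2) * q.d3 ^ ((L - l.2.2) * s) : ℕ) : ℤ) := ⟨_, rfl⟩
  obtain ⟨Dn, hDn⟩ : ∃ Dn : ℝ, Dn = (q.d1 : ℝ) ^ (L * s) * (q.d2 : ℝ) ^ (L * s) *
      (q.d3 : ℝ) ^ (L * s) := ⟨_, rfl⟩
  have key : q.A L p m1 m2 s * Dn = (Z : ℝ) := by
    rw [hZ, Q3.A, Finset.sum_mul, Int.cast_sum]
    refine Finset.sum_congr rfl fun l hl => ?_
    obtain ⟨h1, h2, h3⟩ := mem_Cu hl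
    rw [exp_E ok, hDn]
    have f1 := fac (a := q.a1) (s := s) ok.d1.1 h1
    have f2 := fac (a := q.a2) (s := s) ok.d2.1 h2
    have f3 := fac (a := q.a3) (s := s) ok.d3.1 h3
    calc (p l : ℝ) * (q.g1 l : ℝ) ^ m1 * (q.g2 l : ℝ) ^ m2 *
          (((q.a1 : ℝ) / q.d1) ^ (s * l.1) * ((q.a2 : ℝ) / q.d2) ^ (s * l.2.1) *
            ((q.a3 : ℝ) / q.d3) ^ (s * l.2.2)) *
          ((q.d1 : ℝ) ^ (L * s) * (q.d2 : ℝ) ^ (L * s) * (q.d3 : ℝ) ^ (L * s))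
        = (p l : ℝ) * (q.g1 l : ℝ) ^ m1 * (q.g2 l : ℝ) ^ m2 *
          (((q.a1 : ℝ) / q.d1) ^ (s * l.1) * (q.d1 : ℝ) ^ (L * s)) *
          (((q.a2 : ℝ) / q.d2) ^ (s * l.2.1) * (q.d2 : ℝ) ^ (L * s)) *
          (((q.a3 : ℝ) / q.d3) ^ (s * l.2.2) * (q.d3 : ℝ) ^ (L * s)) := by ring
      _ = _ := by
        rw [f1, f2, f3]
        push_cast
        ring
  have hH := H_pos ok
  have hle : ∀ d : ℕ, 1 ≤ d → d ≤ H → (d : ℝ) ^ (L * s) ≤ (H : ℝ) ^ (L * s) := by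
    intro d _ h
    exact pow_le_pow_left₀ (by positivity) (by exact_mod_cast h) _
  have hDnH : Dn ≤ (H : ℝ) ^ (3 * L * s) := by
    have e : (H : ℝ) ^ (3 * L * s) = (H : ℝ) ^ (L * s) * (H : ℝ) ^ (L * s) * (H : ℝ) ^ (L * s) := by
      rw [← pow_add, ← pow_add]
      congr 1
      ring
    rw [e, hDn]
    have := hle q.d1 ok.d1.1 ok.d1.2
    have := hle q.d2 ok.d2.1 ok.d2.2
    have := hle q.d3 ok.d3.1 ok.d3.2
    gcongr
  have hD0 : 0 < Dn := by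
    have h1 : (0 : ℝ) < q.d1 := by exact_mod_cast ok.d1.1
    have h2 : (0 : ℝ) < q.d2 := by exact_mod_cast ok.d2.1
    have h3 : (0 : ℝ) < q.d3 := by exact_mod_cast ok.d3.1
    rw [hDn]
    positivity
  by_cases hA : q.A L p m1 m2 s = 0
  · exact Or.inl hA
  · right
    have hZ0 : Z ≠ 0 := by
      intro h
      rw [h, Int.cast_zero] at key
      rcases mul_eq_zero.1 key with h | h
      · exact hA h
      · exact hD0.ne' h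
    have h1 : (1 : ℝ) ≤ |(Z : ℝ)| := by
      rw [← Int.cast_abs]
      exact_mod_cast Int.one_le_abs hZ0
    rw [← key, abs_mul, abs_of_pos hD0] at h1
    exact h1.trans (mul_le_mul_of_nonneg_left hDnH (abs_nonneg _))

theorem om_eq {q : Q3} {H : ℕ} (ok : q.Ok H) (l : ℕ × ℕ × ℕ) :
    q.om l = q.E l - l.2.2 * q.Lam / q.b3 := by
  have hb : (q.b3 : ℝ) ≠ 0 := by exact_mod_cast ok.ne
  unfold Q3.om Q3.E Q3.Lam Q3.g1 Q3.g2
  field_simp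
  push_cast
  ring

theorem exp_E_le {q : Q3} {H L : ℕ} (ok : q.Ok H) {l : ℕ × ℕ × ℕ} (hl : l ∈ Cu L) (s : ℕ) :
    Real.exp (s * q.E l) ≤ (H : ℝ) ^ (3 * L * s) := by
  obtain ⟨h1, h2, h3⟩ := mem_Cu hl
  have hH := H_pos ok
  have hone : ∀ a d x : ℕ, 1 ≤ a → a ≤ H → 1 ≤ d → x < L →
      ((a : ℝ) / d) ^ (s * x) ≤ (H : ℝ) ^ (L * s) := by
    intro a d x ha haH hd hx
    have e1 : (a : ℝ) / d ≤ H := by
      have d1 : (1 : ℝ) ≤ d := by exact_mod_cast hd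
      have a1 : (a : ℝ) ≤ H := by exact_mod_cast haH
      rw [div_le_iff₀ (by linarith)]
      nlinarith
    calc ((a : ℝ) / d) ^ (s * x) ≤ (H : ℝ) ^ (s * x) := pow_le_pow_left₀ (by positivity) e1 _
      _ ≤ (H : ℝ) ^ (L * s) := pow_le_pow_right₀ hH (by
          rw [Nat.mul_comm L s]
          exact Nat.mul_le_mul_left s hx.le)
  rw [exp_E ok]
  have e : (H : ℝ) ^ (3 * L * s) = (H : ℝ) ^ (L * s) * (H : ℝ) ^ (L * s) * (H : ℝ) ^ (L * s) := by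
    rw [← pow_add, ← pow_add]
    congr 1
    ring
  rw [e]
  have := hone q.a1 q.d1 l.1 ok.a1.1 ok.a1.2 ok.d1.1 h1
  have := hone q.a2 q.d2 l.2.1 ok.a2.1 ok.a2.2 ok.d2.1 h2
  have := hone q.a3 q.d3 l.2.2 ok.a3.1 ok.a3.2 ok.d3.1 h3
  gcongr

theorem g_le {b b' : ℤ} {H L x z T m : ℕ} (hH : 1 ≤ H) (hL : 1 ≤ L) (hb : |b| ≤ H)
    (hb' : |b'| ≤ H) (hx : x < L) (hz : z < L) (hm : m ≤ T) :
    |((b * x - b' * z : ℤ) : ℝ)| ^ m ≤ (2 * H * L : ℝ) ^ T := by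
  have h1 : |b * (x : ℤ) - b' * z| ≤ 2 * H * L := by
    calc |b * (x : ℤ) - b' * z| ≤ |b * (x : ℤ)| + |b' * (z : ℤ)| := abs_sub _ _
      _ = |b| * x + |b'| * z := by
        rw [abs_mul, abs_mul, Nat.abs_cast, Nat.abs_cast]
      _ ≤ H * L + H * L := by
        have hx' : (x : ℤ) ≤ L := by exact_mod_cast hx.le
        have hz' : (z : ℤ) ≤ L := by exact_mod_cast hz.le
        gcongr
      _ = 2 * H * L := by ring
  have h2 : |((b * x - b' * z : ℤ) : ℝ)| ≤ 2 * H * L := by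
    rw [← Int.cast_abs]
    exact_mod_cast h1
  have h3 : (1 : ℝ) ≤ 2 * H * L := by
    have a1 : (1 : ℝ) ≤ H := by exact_mod_cast hH
    have a2 : (1 : ℝ) ≤ L := by exact_mod_cast hL
    nlinarith
  calc |((b * x - b' * z : ℤ) : ℝ)| ^ m ≤ (2 * H * L : ℝ) ^ m :=
        pow_le_pow_left₀ (abs_nonneg _) h2 _
    _ ≤ (2 * H * L : ℝ) ^ T := pow_le_pow_right₀ h3 hm

theorem cmp : CMP := by
  intro q H L T s p P m1 m2 ok hL hm1 hm2 hp hLam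
  have hH := H_pos ok
  have hHn : 1 ≤ H := by exact_mod_cast hH
  have hP : 0 ≤ P := (abs_nonneg _).trans (hp 0)
  have hcard : (Cu L).card = L ^ 3 := by
    unfold Cu
    rw [card_product, card_product, card_range]
    ring
  have hL0 : 0 ≤ |q.Lam| := abs_nonneg _
  have hterm : ∀ l ∈ Cu L, |(p l : ℝ) * (q.g1 l : ℝ) ^ m1 * (q.g2 l : ℝ) ^ m2 * q.om l ^ 0 *
      Real.exp (s * q.om l) - (p l : ℝ) * (q.g1 l : ℝ) ^ m1 * (q.g2 l : ℝ) ^ m2 *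
      Real.exp (s * q.E l)| ≤ P * (2 * H * L) ^ (2 * T) * (H : ℝ) ^ (3 * L * s) *
        (2 * (L * s)) * |q.Lam| := by
    intro l hl
    obtain ⟨h1, h2, h3⟩ := mem_Cu hl
    obtain ⟨t, ht⟩ : ∃ t : ℝ, t = -(s * l.2.2 * q.Lam / q.b3) := ⟨_, rfl⟩
    have e1 : s * q.om l = s * q.E l + t := by
      rw [om_eq ok, ht]
      ring
    have e2 : (p l : ℝ) * (q.g1 l : ℝ) ^ m1 * (q.g2 l : ℝ) ^ m2 * q.om l ^ 0 *
      Real.exp (s * q.om l) - (p l : ℝ) * (q.g1 l : ℝ) ^ m1 * (q.g2 l : ℝ) ^ m2 *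
      Real.exp (s * q.E l) = (p l : ℝ) * (q.g1 l : ℝ) ^ m1 * (q.g2 l : ℝ) ^ m2 *
        Real.exp (s * q.E l) * (Real.exp t - 1) := by
      rw [e1, Real.exp_add]
      ring
    have hb : (1 : ℝ) ≤ |(q.b3 : ℝ)| := by
      rw [← Int.cast_abs]
      exact_mod_cast Int.one_le_abs ok.ne
    have ht1 : |t| ≤ |q.Lam| * (L * s) := by
      rw [ht, abs_neg, abs_div, div_le_iff₀ (by linarith), abs_mul, abs_mul, Nat.abs_cast,
        Nat.abs_cast]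
      have h4 : (l.2.2 : ℝ) ≤ L := by exact_mod_cast h3.le
      calc (s : ℝ) * l.2.2 * |q.Lam| ≤ (s : ℝ) * L * |q.Lam| := by gcongr
        _ = |q.Lam| * (L * s) * 1 := by ring
        _ ≤ |q.Lam| * (L * s) * |(q.b3 : ℝ)| := by gcongr
    have ht2 : |Real.exp t - 1| ≤ 2 * |t| := Real.abs_exp_sub_one_le (ht1.trans hLam)
    have hg1 : |(q.g1 l : ℝ)| ^ m1 ≤ (2 * H * L : ℝ) ^ T :=
      g_le hHn hL ok.b3 ok.b1 h1 h3 hm1
    have hg2 : |(q.g2 l : ℝ)| ^ m2 ≤ (2 * H * L : ℝ) ^ T :=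
      g_le hHn hL ok.b3 ok.b2 h2 h3 hm2
    have he := exp_E_le ok hl s
    rw [e2, abs_mul, abs_mul, abs_mul, abs_mul, abs_pow, abs_pow, abs_of_pos (Real.exp_pos _)]
    calc |(p l : ℝ)| * |(q.g1 l : ℝ)| ^ m1 * |(q.g2 l : ℝ)| ^ m2 * Real.exp (s * q.E l) *
          |Real.exp t - 1|
        ≤ P * (2 * H * L : ℝ) ^ T * (2 * H * L : ℝ) ^ T * (H : ℝ) ^ (3 * L * s) *
          (2 * (|q.Lam| * (L * s))) := by
          have := hp l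
          have h5 : |Real.exp t - 1| ≤ 2 * (|q.Lam| * (L * s)) := ht2.trans (by linarith)
          gcongr
      _ = P * (2 * H * L) ^ (2 * T) * (H : ℝ) ^ (3 * L * s) * (2 * (L * s)) * |q.Lam| := by
          rw [two_mul T, pow_add]
          ring
  unfold Q3.ph Q3.A
  rw [← Finset.sum_sub_distrib]
  calc |∑ l ∈ Cu L, ((p l : ℝ) * (q.g1 l : ℝ) ^ m1 * (q.g2 l : ℝ) ^ m2 * q.om l ^ 0 *
      Real.exp (s * q.om l) - (p l : ℝ) * (q.g1 l : ℝ) ^ m1 * (q.g2 l : ℝ) ^ m2 *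
      Real.exp (s * q.E l))|
      ≤ ∑ l ∈ Cu L, |(p l : ℝ) * (q.g1 l : ℝ) ^ m1 * (q.g2 l : ℝ) ^ m2 * q.om l ^ 0 *
      Real.exp (s * q.om l) - (p l : ℝ) * (q.g1 l : ℝ) ^ m1 * (q.g2 l : ℝ) ^ m2 *
      Real.exp (s * q.E l)| := Finset.abs_sum_le_sum_abs _ _
    _ ≤ ∑ _l ∈ Cu L, P * (2 * H * L) ^ (2 * T) * (H : ℝ) ^ (3 * L * s) * (2 * (L * s)) *
        |q.Lam| := Finset.sum_le_sum hterm
    _ = (L : ℝ) ^ 3 * P * (2 * H * L) ^ (2 * T) * (H : ℝ) ^ (3 * L * s) * (2 * (L * s)) *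
        |q.Lam| := by
        rw [Finset.sum_const, hcard, nsmul_eq_mul]
        push_cast
        ring

end Pool.Agent.N36.MX3L

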